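import Pool.Agent.Y524H.Conv
import Pool.Agent.Y524H.Check

/-!
# Hurwitz equivalence of factorizations into positive Dehn twists is undecidable

The surface is the closed oriented surface `Σ` of genus six; mapping classes are outer
automorphisms of its fundamental group `⟨a_i, b_i | ∏ [a_i, b_i]⟩` (Dehn, Nielsen, Baer). The input
of an algorithm is a list of names of positive Dehn twists; a name is a word in Lickorish's twists
(which generate the mapping class group) together with one of the types `0` (nonseparating) and
`1, 2, 3` (separating, bounding a subsurface of genus `1, 2, 3`). The formulas for the twists are
checked in `Pool/Agent/Y524H/Check.lean`: braid relations, commutations, and the chain relations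
which give the separating twists.

Outline of the proof. Let `L`, `R` be the halves of genus three of `Σ`. The involution `θ` which
exchanges them is a product of eight positive twists (Matsumoto, Cadavid, Korkmaz), so `R₀ = θ θ`
is a factorization of the identity. Let `Φ` be a map from `π₁(Σ)` to a finitely presented group `Q`
with two generators and undecidable word problem, which folds the two halves and sends one `b`-curve
of `L` to each generator of `Q` and the other generators of `π₁(L)` to `1`. For a finite set `S` of
mapping classes of `L` which preserve `Φ` let `τ` be the product of `R₀` and of the `s R₀ s⁻¹`,
`s ∈ S`, and `H` the group generated by the twists of `τ`. It contains `[s, θ] = s (θ s θ⁻¹)⁻¹`; a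
commutator trick gives `[x, y] ∈ H` for all `x, y` in the group generated by `S₀`, where `S`
contains `S₀` and its products of two elements. For a word `w` let `γ_w` be the push of one foot of
a handle of `L` along `w`. With suitable bounding pair maps in `S₀`, `γ_w` is in the group generated
by `S₀` if `w = 1` in `Q`, so that `δ_w = [γ_w, T]` is in `H`, where `T` is a twist; then `τ` and
`δ_w τ δ_w⁻¹` are Hurwitz equivalent. Conversely, if they are, then `δ_w` normalises `H`, and as `H`
preserves `Φ` up to conjugacy this implies `w = 1` in `Q`.
-/

set_option autoImplicit false

namespace Pool.Agent.Results.MP_1b0330_gt.HurwitzUndecidable

open Pool.Agent.Y524H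

/-- In the mapping class group of the closed surface of genus six there is a factorization `τ` of
the identity into positive Dehn twists such that no algorithm decides which factorizations of the
identity into positive Dehn twists are Hurwitz equivalent to `τ`; in particular no algorithm
decides Hurwitz equivalence of pairs of such factorizations. -/
theorem result : (∃ τ : List Entry, IsFactorization τ ∧
    ¬ ∃ f : List Entry → Bool, Computable f ∧ ∀ x : List Entry, IsFactorization x →
      (f x = true ↔ HurwitzEquiv (τ.map dehn) (x.map dehn))) ∧
    ¬ ∃ f : List Entry × List Entry → Bool, Computable f ∧ ∀ x y : List Entry,
      IsFactorization x → IsFactorization y →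
        (f (x, y) = true ↔ HurwitzEquiv (x.map dehn) (y.map dehn)) :=
  undecidable

end Pool.Agent.Results.MP_1b0330_gt.HurwitzUndecidable
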